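import Pool.Agent.FB75.Sym

/-!
# Solutions invariant under rotations about an axis, or under a screw group
-/

namespace Pool.Agent.Results.MP_82058b_an.AxialSymmetry

/-- Let `u` be an entire classical solution of the one-phase free boundary problem in `ℝ³` whose
positive phase and zero phase are both contractible. If `u` is invariant under a one-parameter
group of rotations about a line (`c = 0`) or of screw motions (`c ≠ 0`), then `u` is a half-space
solution after a rigid motion. -/
theorem result (u : EuclideanSpace ℝ (Fin 3) → ℝ) (hu : FB75.IsEntireSolution u)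
    (T : EuclideanSpace ℝ (Fin 3) ≃ᵢ EuclideanSpace ℝ (Fin 3)) (c : ℝ)
    (hinv : ∀ (θ : ℝ) (x : EuclideanSpace ℝ (Fin 3)), u (T (FB75.screw c θ x)) = u (T x))
    (hpos : ContractibleSpace {x | 0 < u x}) (hzero : ContractibleSpace {x | u x = 0}) :
    ∃ (e : EuclideanSpace ℝ (Fin 3)) (t : ℝ), ‖e‖ = 1 ∧ ∀ x, u x = max (inner ℝ x e - t) 0 :=
  FB75.sym_flat hu T c hinv

end Pool.Agent.Results.MP_82058b_an.AxialSymmetry
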