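import Pool.Agent.FB75.Convex

/-!
# Solutions with convex zero phase
-/

namespace Pool.Agent.Results.MP_82058b_an.ConvexZeroPhase

/-- An entire classical solution of the one-phase free boundary problem in `ℝ³` with contractible
positive phase and nonempty convex zero phase is a half-space solution after a rigid motion. -/
theorem result (u : EuclideanSpace ℝ (Fin 3) → ℝ) (hu : FB75.IsEntireSolution u)
    (hpos : ContractibleSpace {x | 0 < u x}) (hne : {x | u x = 0}.Nonempty)
    (hconv : Convex ℝ {x | u x = 0}) :
    ∃ (e : EuclideanSpace ℝ (Fin 3)) (t : ℝ), ‖e‖ = 1 ∧ ∀ x, u x = max (inner ℝ x e - t) 0 :=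
  FB75.convex_flat hu hne hconv

end Pool.Agent.Results.MP_82058b_an.ConvexZeroPhase
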