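import Pool.Agent.FBQ.Final

/-!
# No interior curvature bound under contractibility of both phases
-/

namespace Pool.Agent.Results.MP_82058b_an.CurvatureUnbounded

/-- For every `c > 0` and every `M` there is a classical solution of the one-phase free boundary
problem in the unit ball of `ℝ³`, with contractible positive phase and contractible zero phase,
whose free boundary meets the ball `B_c` and has a normal curvature larger than `M` at each of its
points. -/
theorem result (c : ℝ) (hc : 0 < c) (M : ℝ) :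
    ∃ u : EuclideanSpace ℝ (Fin 3) → ℝ, FBQ.IsSolutionOn (Metric.ball 0 1) u ∧
      ContractibleSpace {x | x ∈ Metric.ball (0 : EuclideanSpace ℝ (Fin 3)) 1 ∧ 0 < u x} ∧
      ContractibleSpace {x | x ∈ Metric.ball (0 : EuclideanSpace ℝ (Fin 3)) 1 ∧ u x = 0} ∧
      (∃ y ∈ Metric.ball (0 : EuclideanSpace ℝ (Fin 3)) 1,
        y ∈ frontier {x | x ∈ Metric.ball (0 : EuclideanSpace ℝ (Fin 3)) 1 ∧ 0 < u x} ∧ ‖y‖ < c) ∧
      ∀ y ∈ Metric.ball (0 : EuclideanSpace ℝ (Fin 3)) 1,
        y ∈ frontier {x | x ∈ Metric.ball (0 : EuclideanSpace ℝ (Fin 3)) 1 ∧ 0 < u x} →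
        FBQ.HasNormalCurvatureGT
          (frontier {x | x ∈ Metric.ball (0 : EuclideanSpace ℝ (Fin 3)) 1 ∧ 0 < u x}) y M :=
  FBQ.no_bound c hc M

end Pool.Agent.Results.MP_82058b_an.CurvatureUnbounded
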