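import Pool.Agent.FB75.AsymDir

/-!
# The asymptotic directions of the zero phase
-/

namespace Pool.Agent.Results.MP_82058b_an.Directions

/-- Let `u` be an entire classical solution of the one-phase free boundary problem in `ℝ³` whose
positive phase and zero phase are both contractible. Then the zero phase is not contained in any
double cone `{x : |⟪x, e⟫| ≥ δ |x| - M}`, `δ > 0`. -/
theorem result (u : EuclideanSpace ℝ (Fin 3) → ℝ) (hu : FB75.IsEntireSolution u)
    (hpos : ContractibleSpace {x | 0 < u x}) (hzero : ContractibleSpace {x | u x = 0})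
    (e : EuclideanSpace ℝ (Fin 3)) (he : ‖e‖ = 1) (δ M : ℝ) (hδ : 0 < δ) :
    ∃ x, u x = 0 ∧ |inner ℝ x e| < δ * ‖x‖ - M :=
  FB75.asym_dir hu he hδ M

end Pool.Agent.Results.MP_82058b_an.Directions
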